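import Pool.Agent.H704.LC.Kset

/-!
# Lattice-catching sets of a unit strip: the bound `4 / 3` without convexity

Let `𝒞` be the class of the sets `{(x, y) : |x| ≤ 1 / 2, B x ≤ y ≤ T x}`, where `B` and `T` are
continuous on `[-1/2, 1/2]` and satisfy `|F x - F x'| ≤ max (7/10) |x - x'|` there.  No convexity
(or concavity) of `B` and `T` is assumed.  We prove that the least area of a lattice-catching set
of the class `𝒞` is `4 / 3`, and that it is attained exactly by the vertical translates of the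
set `K = {(x, y) : |x| ≤ 1 / 2, |y| ≤ 3 / 4 - x ^ 2}` of the problem.

*Lower bound.*  Let `c = cos θ`, `s = sin θ`, `0 < θ < π / 2`.  Consider the lattice rotated by `θ`
which has a point just outside the right side of the strip.  The lattice points of the strip lie
above `P = (1/2 - s, ·)` or below `Q = (1/2 - c, ·)`, where `P - Q = (c - s, c + s)`, and by the
condition on `B` and `T` a point above `P` (below `Q`) is in the set only if the vertical position
is such that `P` (`Q`) could be in it as well.  Hence `T (1/2 - s) - B (1/2 - c) ≥ c + s`, and by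
reflection `T (c - 1/2) - B (s - 1/2) ≥ c + s`.  Integrating both against `sin θ cos θ dθ` gives
`∫ T - ∫ B ≥ 4 / 3`.

*Equality* forces equality for all `θ`; with `T = 3/4 - x ^ 2 + g` and `B = x ^ 2 - 3/4 + h` this
gives `g (1/2 - s) = g (1/2 - ψ s)` with `ψ s ≤ s ^ 2`, so `g` and `h` are the same constant.

*`K` is lattice-catching* (known: Schäffer 1955, Sawyer 1955): if no lattice point is in `K`,
then one can climb from a lattice point of the strip below `K` to another one, again and again.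
-/

set_option autoImplicit false

namespace Pool.Agent.Results.MP_02aa3f_co.UnitStrip

open MeasureTheory Pool.Agent.H704.LC

/-- Every congruent copy `ρ '' E` of `E` contains a point of the integer lattice. -/
def LatticeCatching (E : Set (EuclideanSpace ℝ (Fin 2))) : Prop :=
  ∀ ρ : EuclideanSpace ℝ (Fin 2) ≃ᵢ EuclideanSpace ℝ (Fin 2),
    ∃ q ∈ ρ '' E, ∃ m n : ℤ, q 0 = m ∧ q 1 = n

/-- The set between the graphs of `B` and `T` over `[-1/2, 1/2]`. -/
def Between (B T : ℝ → ℝ) : Set (EuclideanSpace ℝ (Fin 2)) :=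
  {p | |p 0| ≤ 1 / 2 ∧ B (p 0) ≤ p 1 ∧ p 1 ≤ T (p 0)}

/-- The condition on the lower and the upper boundary. -/
def Admissible (F : ℝ → ℝ) : Prop :=
  ContinuousOn F (Set.Icc (-1 / 2) (1 / 2)) ∧
    ∀ x ∈ Set.Icc (-1 / 2 : ℝ) (1 / 2), ∀ x' ∈ Set.Icc (-1 / 2 : ℝ) (1 / 2),
      |F x - F x'| ≤ max (7 / 10) |x - x'|

/-- The set `K` of the problem. -/
def K : Set (EuclideanSpace ℝ (Fin 2)) := {p | |p 0| ≤ 1 / 2 ∧ |p 1| ≤ 3 / 4 - p 0 ^ 2}

/-- Motions of the plane given by a rotation and a translation. -/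
theorem catch_of {B T : ℝ → ℝ} (h : LatticeCatching (Between B T)) : Catch B T := by
  intro c s x y hcs
  let f : EuclideanSpace ℝ (Fin 2) → EuclideanSpace ℝ (Fin 2) :=
    fun p => !₂[x + c * p 0 - s * p 1, y + s * p 0 + c * p 1]
  let g : EuclideanSpace ℝ (Fin 2) → EuclideanSpace ℝ (Fin 2) :=
    fun p => !₂[c * (p 0 - x) + s * (p 1 - y), -s * (p 0 - x) + c * (p 1 - y)]
  have hgf : ∀ p, g (f p) = p := by
    intro p
    ext i
    fin_cases i
    · have : c * (x + c * p 0 - s * p 1 - x) + s * (y + s * p 0 + c * p 1 - y)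
          = (c ^ 2 + s ^ 2) * p 0 := by ring
      simp [g, f, this, hcs]
    · have : -s * (x + c * p 0 - s * p 1 - x) + c * (y + s * p 0 + c * p 1 - y)
          = (c ^ 2 + s ^ 2) * p 1 := by ring
      simp only [g, f, Fin.mk_one, Matrix.cons_val_one, Matrix.cons_val_zero]
      rw [this, hcs, one_mul]
  have hg : Isometry g := by
    refine Isometry.of_dist_eq (fun p q => ?_)
    rw [EuclideanSpace.dist_eq, EuclideanSpace.dist_eq, Fin.sum_univ_two, Fin.sum_univ_two]
    congr 1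
    simp only [g, Matrix.cons_val_one, Matrix.cons_val_zero, Real.dist_eq, sq_abs]
    have : (c * (p 0 - x) + s * (p 1 - y) - (c * (q 0 - x) + s * (q 1 - y))) ^ 2
        + (-s * (p 0 - x) + c * (p 1 - y) - (-s * (q 0 - x) + c * (q 1 - y))) ^ 2
        = (c ^ 2 + s ^ 2) * ((p 0 - q 0) ^ 2 + (p 1 - q 1) ^ 2) := by ring
    rw [this, hcs, one_mul]
  obtain ⟨q, ⟨p, hp, hpq⟩, m, n, e1, e2⟩ := h (IsometryEquiv.mk' g f hgf hg)
  have hpq' : q = g p := hpq.symm
  have g0 : g p 0 = c * (p 0 - x) + s * (p 1 - y) := by simp [g]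
  have g1 : g p 1 = -s * (p 0 - x) + c * (p 1 - y) := by simp [g]
  rw [hpq', g0] at e1
  rw [hpq', g1] at e2
  have k0 : x + m * c - n * s = p 0 := by
    rw [← e1, ← e2]
    have : x + (c * (p 0 - x) + s * (p 1 - y)) * c - (-s * (p 0 - x) + c * (p 1 - y)) * s
        = x + (c ^ 2 + s ^ 2) * (p 0 - x) := by ring
    rw [this, hcs]; ring
  have k1 : y + m * s + n * c = p 1 := by
    rw [← e1, ← e2]
    have : y + (c * (p 0 - x) + s * (p 1 - y)) * s + (-s * (p 0 - x) + c * (p 1 - y)) * c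
        = y + (c ^ 2 + s ^ 2) * (p 1 - y) := by ring
    rw [this, hcs]; ring
  refine ⟨m, n, ?_⟩
  rw [k0, k1]
  exact hp

/-- Projection of the line to `[-1/2, 1/2]`. -/
noncomputable def clamp (x : ℝ) : ℝ := max (-1 / 2) (min x (1 / 2))

theorem clamp_mem (x : ℝ) : clamp x ∈ Set.Icc (-1 / 2 : ℝ) (1 / 2) :=
  ⟨le_max_left _ _, max_le (by norm_num) (min_le_right _ _)⟩

theorem clamp_eq {x : ℝ} (hx : x ∈ Set.Icc (-1 / 2 : ℝ) (1 / 2)) : clamp x = x := by
  rw [clamp, min_eq_left hx.2, max_eq_right hx.1]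

theorem clamp_continuous : Continuous clamp := by
  unfold clamp
  fun_prop

/-- The area of the region between two continuous functions. -/
theorem volume_between {B T B' T' : ℝ → ℝ} (cB' : Continuous B') (cT' : Continuous T')
    (eB : ∀ x ∈ Set.Icc (-1 / 2 : ℝ) (1 / 2), B' x = B x)
    (eT : ∀ x ∈ Set.Icc (-1 / 2 : ℝ) (1 / 2), T' x = T x)
    (hle : ∀ x ∈ Set.Icc (-1 / 2 : ℝ) (1 / 2), B' x ≤ T' x) :
    volume (Between B T)
      = ENNReal.ofReal (∫ x in (-1 / 2 : ℝ)..(1 / 2), (T' x - B' x)) := by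
  set S : Set (ℝ × ℝ) := {q | q.1 ∈ Set.Icc (-1 / 2 : ℝ) (1 / 2) ∧ B' q.1 ≤ q.2 ∧ q.2 ≤ T' q.1}
    with hS
  have hms : MeasurableSet S := by
    refine (measurable_fst measurableSet_Icc).inter (MeasurableSet.inter ?_ ?_)
    · exact measurableSet_le (cB'.measurable.comp measurable_fst) measurable_snd
    · exact measurableSet_le measurable_snd (cT'.measurable.comp measurable_fst)
  have mp : MeasurePreserving
      (fun p : EuclideanSpace ℝ (Fin 2) => (MeasurableEquiv.finTwoArrow (WithLp.ofLp p) : ℝ × ℝ)) :=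
    (volume_preserving_finTwoArrow ℝ).comp (PiLp.volume_preserving_ofLp (Fin 2))
  have hpre := mp.measure_preimage hms.nullMeasurableSet
  have hset : (fun p : EuclideanSpace ℝ (Fin 2) =>
      (MeasurableEquiv.finTwoArrow (WithLp.ofLp p) : ℝ × ℝ)) ⁻¹' S = Between B T := by
    ext p
    have a1 : (MeasurableEquiv.finTwoArrow (WithLp.ofLp p) : ℝ × ℝ).1 = p 0 := rfl
    have a2 : (MeasurableEquiv.finTwoArrow (WithLp.ofLp p) : ℝ × ℝ).2 = p 1 := rfl
    simp only [hS, Set.mem_preimage, Set.mem_ofPred_eq, a1, a2, Between]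
    constructor
    · rintro ⟨h1, h2, h3⟩
      rw [eB _ h1] at h2
      rw [eT _ h1] at h3
      refine ⟨?_, h2, h3⟩
      rw [abs_le]
      exact ⟨by linarith [h1.1], h1.2⟩
    · rintro ⟨h1, h2, h3⟩
      rw [abs_le] at h1
      have h1' : p 0 ∈ Set.Icc (-1 / 2 : ℝ) (1 / 2) := ⟨by linarith [h1.1], h1.2⟩
      refine ⟨h1', ?_, ?_⟩
      · rw [eB _ h1']; exact h2
      · rw [eT _ h1']; exact h3
  rw [hset] at hpre
  rw [hpre, Measure.volume_eq_prod, Measure.prod_apply hms]
  have hsec : ∀ x : ℝ, volume (Prod.mk x ⁻¹' S)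
      = (Set.Icc (-1 / 2 : ℝ) (1 / 2)).indicator (fun x => ENNReal.ofReal (T' x - B' x)) x := by
    intro x
    by_cases hx : x ∈ Set.Icc (-1 / 2 : ℝ) (1 / 2)
    · rw [Set.indicator_of_mem hx]
      have : Prod.mk x ⁻¹' S = Set.Icc (B' x) (T' x) := by
        ext y
        simp only [hS, Set.mem_preimage, Set.mem_ofPred_eq, Set.mem_Icc]
        constructor
        · rintro ⟨_, h2, h3⟩; exact ⟨h2, h3⟩
        · rintro ⟨h2, h3⟩; exact ⟨hx, h2, h3⟩
      rw [this, Real.volume_Icc]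
    · rw [Set.indicator_of_notMem hx]
      have : Prod.mk x ⁻¹' S = ∅ := by
        ext y
        simp only [hS, Set.mem_preimage, Set.mem_ofPred_eq, Set.mem_empty_iff_false, iff_false]
        rintro ⟨h1, _⟩
        exact hx h1
      rw [this, measure_empty]
  rw [lintegral_congr hsec, lintegral_indicator measurableSet_Icc,
    intervalIntegral.integral_of_le (by norm_num), ← integral_Icc_eq_integral_Ioc]
  refine (ofReal_integral_eq_lintegral_ofReal ?_ ?_).symm
  · exact (cT'.sub cB').integrableOn_Icc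
  · refine (ae_restrict_iff' measurableSet_Icc).mpr (Filter.Eventually.of_forall fun x hx => ?_)
    simp only [Pi.zero_apply, sub_nonneg]
    exact hle x hx

/-- The data of a lattice-catching set of the class. -/
theorem extend {B T : ℝ → ℝ} (hB : Admissible B) (hT : Admissible T)
    (h : LatticeCatching (Between B T)) :
    ∃ B' T' : ℝ → ℝ, Continuous B' ∧ Continuous T' ∧ Flat B' ∧ Flat T' ∧ Catch B' T' ∧
      (∀ x ∈ Set.Icc (-1 / 2 : ℝ) (1 / 2), B' x = B x) ∧
      (∀ x ∈ Set.Icc (-1 / 2 : ℝ) (1 / 2), T' x = T x) ∧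
      (∀ x ∈ Set.Icc (-1 / 2 : ℝ) (1 / 2), B' x ≤ T' x) := by
  have hC := catch_of h
  set B' : ℝ → ℝ := fun x => B (clamp x) with hB'
  set T' : ℝ → ℝ := fun x => T (clamp x) with hT'
  have cB' : Continuous B' := hB.1.comp_continuous clamp_continuous clamp_mem
  have cT' : Continuous T' := hT.1.comp_continuous clamp_continuous clamp_mem
  have eB : ∀ x ∈ Set.Icc (-1 / 2 : ℝ) (1 / 2), B' x = B x := fun x hx => by
    simp only [hB', clamp_eq hx]
  have eT : ∀ x ∈ Set.Icc (-1 / 2 : ℝ) (1 / 2), T' x = T x := fun x hx => by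
    simp only [hT', clamp_eq hx]
  have fB : Flat B' := by
    intro x hx y hy
    rw [eB x hx, eB y hy]
    exact hB.2 x hx y hy
  have fT : Flat T' := by
    intro x hx y hy
    rw [eT x hx, eT y hy]
    exact hT.2 x hx y hy
  have hC' : Catch B' T' := by
    intro c s x y hcs
    obtain ⟨a, b, h1, h2, h3⟩ := hC c s x y hcs
    have hm : x + a * c - b * s ∈ Set.Icc (-1 / 2 : ℝ) (1 / 2) := by
      rw [abs_le] at h1
      exact ⟨by linarith [h1.1], h1.2⟩
    refine ⟨a, b, h1, ?_, ?_⟩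
    · rw [eB _ hm]; exact h2
    · rw [eT _ hm]; exact h3
  have hle : ∀ x ∈ Set.Ioo (-1 / 2 : ℝ) (1 / 2), B' x ≤ T' x := by
    intro x hx
    obtain ⟨a, b, h1, h2, h3⟩ := hC' 1 0 x 0 (by norm_num)
    have ha : a = 0 := by
      rw [abs_le] at h1
      have l1 : (a : ℝ) < 1 := by linarith [h1.2, hx.1]
      have l2 : (-1 : ℝ) < a := by linarith [h1.1, hx.2]
      have l1' : a < 1 := by exact_mod_cast l1
      have l2' : -1 < a := by exact_mod_cast l2
      omega
    have e : x + (a : ℝ) * 1 - b * 0 = x := by rw [ha]; simp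
    rw [e] at h2 h3
    exact h2.trans h3
  have hle' : Set.Icc (-1 / 2 : ℝ) (1 / 2) ⊆ {x | B' x ≤ T' x} := by
    rw [← closure_Ioo (by norm_num : (-1 / 2 : ℝ) ≠ 1 / 2)]
    exact closure_minimal hle (isClosed_le cB' cT')
  exact ⟨B', T', cB', cT', fB, fT, hC', eB, eT, hle'⟩

theorem K_eq (κ : ℝ) : Between (fun x => x ^ 2 - 3 / 4 + κ) (fun x => 3 / 4 - x ^ 2 + κ)
    = {p | |p 0| ≤ 1 / 2 ∧ |p 1 - κ| ≤ 3 / 4 - p 0 ^ 2} := by
  ext p
  simp only [Between, Set.mem_ofPred_eq, abs_le]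
  constructor
  · rintro ⟨h1, h2, h3⟩
    exact ⟨h1, by linarith, by linarith⟩
  · rintro ⟨h1, h2, h3⟩
    exact ⟨h1, by linarith, by linarith⟩

/-- Lattices in general position. -/
theorem catching_of {B T : ℝ → ℝ} (h : Catch B T) : LatticeCatching (Between B T) := by
  intro ρ
  set A := ρ.symm.toRealAffineIsometryEquiv with hA
  have hAρ : ∀ p, A p = ρ.symm p := fun p => by
    rw [hA, IsometryEquiv.coeFn_toRealAffineIsometryEquiv]
  set L := A.linearIsometryEquiv with hL
  set t := A 0 with ht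
  have hf : ∀ p : EuclideanSpace ℝ (Fin 2), A p = L p + t := by
    intro p
    have := A.map_vadd 0 p
    simpa using this
  set e1 : EuclideanSpace ℝ (Fin 2) := EuclideanSpace.single 0 1 with he1
  set e2 : EuclideanSpace ℝ (Fin 2) := EuclideanSpace.single 1 1 with he2
  have n1 : L e1 0 ^ 2 + L e1 1 ^ 2 = 1 := by
    have h1 : ‖L e1‖ = 1 := by rw [L.norm_map, he1, EuclideanSpace.norm_single, norm_one]
    have h2 := EuclideanSpace.norm_sq_eq (L e1)
    rw [h1, Fin.sum_univ_two, Real.norm_eq_abs, Real.norm_eq_abs, sq_abs, sq_abs] at h2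
    linarith
  have n2 : L e2 0 ^ 2 + L e2 1 ^ 2 = 1 := by
    have h1 : ‖L e2‖ = 1 := by rw [L.norm_map, he2, EuclideanSpace.norm_single, norm_one]
    have h2 := EuclideanSpace.norm_sq_eq (L e2)
    rw [h1, Fin.sum_univ_two, Real.norm_eq_abs, Real.norm_eq_abs, sq_abs, sq_abs] at h2
    linarith
  have n3 : L e1 0 * L e2 0 + L e1 1 * L e2 1 = 0 := by
    have h1 : inner ℝ (L e1) (L e2) = (0 : ℝ) := by
      rw [L.inner_map_map, he1, he2, EuclideanSpace.inner_single_left]
      simp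
    rw [PiLp.inner_apply, Fin.sum_univ_two] at h1
    simp only [RCLike.inner_apply, conj_trivial] at h1
    linarith
  -- the second column is `±` the first one turned by a right angle
  obtain ⟨σ, hσ, w0, w1⟩ : ∃ σ : ℤ, (σ = 1 ∨ σ = -1) ∧ L e2 0 = σ * (-L e1 1) ∧
      L e2 1 = σ * L e1 0 := by
    set a := L e1 0
    set b := L e1 1
    set u := L e2 0
    set v := L e2 1
    have hk : (a * v - b * u) ^ 2 = 1 := by
      have : (a * v - b * u) ^ 2 + (a * u + b * v) ^ 2 = (a ^ 2 + b ^ 2) * (u ^ 2 + v ^ 2) := by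
        ring
      rw [n3, n1, n2] at this
      linarith
    have hu : u = (a * v - b * u) * (-b) := by
      have : (a * v - b * u) * (-b) = (a ^ 2 + b ^ 2) * u - a * (a * u + b * v) := by ring
      rw [this, n1, n3]; ring
    have hv : v = (a * v - b * u) * a := by
      have : (a * v - b * u) * a = (a ^ 2 + b ^ 2) * v - b * (a * u + b * v) := by ring
      rw [this, n1, n3]; ring
    have hk2 : (a * v - b * u - 1) * (a * v - b * u - (-1)) = 0 := by linear_combination hk
    rcases mul_eq_zero.mp hk2 with h1 | h1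
    · have h1' := sub_eq_zero.mp h1
      exact ⟨1, Or.inl rfl, by rw [h1'] at hu; simpa using hu, by rw [h1'] at hv; simpa using hv⟩
    · have h1' := sub_eq_zero.mp h1
      exact ⟨-1, Or.inr rfl, by rw [h1'] at hu; simpa using hu, by rw [h1'] at hv; simpa using hv⟩
  obtain ⟨m, n, h1, h2, h3⟩ := h (L e1 0) (L e1 1) (t 0) (t 1) n1
  -- the lattice point
  set z : EuclideanSpace ℝ (Fin 2) := (m : ℝ) • e1 + ((σ * n : ℤ) : ℝ) • e2 with hz
  have hσ2 : ((σ : ℤ) : ℝ) * σ = 1 := by
    rcases hσ with h | h <;> rw [h] <;> norm_num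
  have z0 : A z 0 = t 0 + m * L e1 0 - n * L e1 1 := by
    rw [hf, hz, map_add, map_smul, map_smul]
    simp only [PiLp.add_apply, PiLp.smul_apply, smul_eq_mul]
    rw [w0]
    push_cast
    linear_combination (-(n : ℝ) * L e1 1) * hσ2
  have z1 : A z 1 = t 1 + m * L e1 1 + n * L e1 0 := by
    rw [hf, hz, map_add, map_smul, map_smul]
    simp only [PiLp.add_apply, PiLp.smul_apply, smul_eq_mul]
    rw [w1]
    push_cast
    linear_combination ((n : ℝ) * L e1 0) * hσ2
  refine ⟨z, ⟨A z, ?_, ?_⟩, m, σ * n, ?_, ?_⟩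
  · simp only [Between, Set.mem_ofPred_eq]
    rw [z0, z1]
    exact ⟨h1, h2, h3⟩
  · rw [hAρ]; exact ρ.apply_symm_apply z
  · simp [hz, he1, he2]
  · simp [hz, he1, he2]

theorem K_catching : LatticeCatching K := by
  have h : Catch (fun x => x ^ 2 - 3 / 4 + 0) (fun x => 3 / 4 - x ^ 2 + 0) := by
    intro c s x y hcs
    obtain ⟨a, b, h1, h2, h3⟩ := khit_all hcs x y
    exact ⟨a, b, h1, by simpa using h2, by simpa using h3⟩
  have h2 := catching_of h
  rw [K_eq] at h2
  simpa [K] using h2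

theorem integral_K (κ : ℝ) : ∫ x in (-1 / 2 : ℝ)..(1 / 2),
    ((3 / 4 - x ^ 2 + κ) - (x ^ 2 - 3 / 4 + κ)) = 4 / 3 := by
  have hd : ∀ x : ℝ, HasDerivAt (fun t : ℝ => 3 / 2 * t - 2 / 3 * t ^ 3)
      ((3 / 4 - x ^ 2 + κ) - (x ^ 2 - 3 / 4 + κ)) x := by
    intro x
    have a1 := (hasDerivAt_id x).const_mul (3 / 2 : ℝ)
    have a2 := ((hasDerivAt_id x).pow 3).const_mul (2 / 3 : ℝ)
    refine (a1.sub a2).congr_deriv ?_
    simp only [id]
    push_cast
    ring
  rw [intervalIntegral.integral_eq_sub_of_hasDerivAt (fun x _ => hd x)]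
  · norm_num
  · apply Continuous.intervalIntegrable
    fun_prop

theorem K_volume : volume K = ENNReal.ofReal (4 / 3) := by
  have h := volume_between (B := fun x => x ^ 2 - 3 / 4 + 0) (T := fun x => 3 / 4 - x ^ 2 + 0)
    (B' := fun x => x ^ 2 - 3 / 4 + 0) (T' := fun x => 3 / 4 - x ^ 2 + 0)
    (by fun_prop) (by fun_prop) (fun _ _ => rfl) (fun _ _ => rfl) (fun x hx => by
      have := hx.1
      have := hx.2
      nlinarith)
  rw [integral_K, K_eq] at h
  simpa [K] using h

theorem result :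
    (∀ B T : ℝ → ℝ, Admissible B → Admissible T → LatticeCatching (Between B T) →
      ENNReal.ofReal (4 / 3) ≤ volume (Between B T) ∧
      (volume (Between B T) = ENNReal.ofReal (4 / 3) → ∃ κ : ℝ,
        Between B T = {p | |p 0| ≤ 1 / 2 ∧ |p 1 - κ| ≤ 3 / 4 - p 0 ^ 2})) ∧
    Admissible (fun x => x ^ 2 - 3 / 4) ∧ Admissible (fun x => 3 / 4 - x ^ 2) ∧
    K = Between (fun x => x ^ 2 - 3 / 4) (fun x => 3 / 4 - x ^ 2) ∧
    LatticeCatching K ∧ volume K = ENNReal.ofReal (4 / 3) := by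
  have hK : K = Between (fun x => x ^ 2 - 3 / 4) (fun x => 3 / 4 - x ^ 2) := by
    have h := K_eq 0
    simp only [add_zero, sub_zero] at h
    rw [h]; rfl
  have hosc : ∀ x ∈ Set.Icc (-1 / 2 : ℝ) (1 / 2), ∀ x' ∈ Set.Icc (-1 / 2 : ℝ) (1 / 2),
      |x ^ 2 - x' ^ 2| ≤ 7 / 10 := by
    intro x hx x' hx'
    have a1 := hx.1
    have a2 := hx.2
    have a3 := hx'.1
    have a4 := hx'.2
    rw [abs_le]
    constructor <;> nlinarith
  refine ⟨?_, ⟨by fun_prop, fun x hx x' hx' => ?_⟩, ⟨by fun_prop, fun x hx x' hx' => ?_⟩, hK,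
    K_catching, K_volume⟩
  · intro B T hB hT h
    obtain ⟨B', T', cB', cT', fB, fT, hC', eB, eT, hle⟩ := extend hB hT h
    have hv := volume_between cB' cT' eB eT hle
    have hint := main_int hC' fB fT cB' cT'
    refine ⟨?_, fun heq => ?_⟩
    · rw [hv]; exact ENNReal.ofReal_le_ofReal hint
    · rw [hv] at heq
      have he : ∫ x in (-1 / 2 : ℝ)..(1 / 2), (T' x - B' x) = 4 / 3 :=
        (ENNReal.ofReal_eq_ofReal_iff (by linarith) (by norm_num)).mp heq
      obtain ⟨κ, hκ⟩ := rigid cB' cT'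
        (fun c s hc hs hcs => eq_all hC' fB fT cB' cT' he hc hs hcs)
      refine ⟨κ, ?_⟩
      rw [← K_eq κ]
      ext p
      simp only [Between, Set.mem_ofPred_eq]
      constructor
      · rintro ⟨h1, h2, h3⟩
        have hm : p 0 ∈ Set.Icc (-1 / 2 : ℝ) (1 / 2) := by
          rw [abs_le] at h1; exact ⟨by linarith [h1.1], h1.2⟩
        have := hκ _ hm
        rw [eB _ hm, eT _ hm] at this
        rw [this.1] at h2
        rw [this.2] at h3
        exact ⟨h1, h2, h3⟩
      · rintro ⟨h1, h2, h3⟩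
        have hm : p 0 ∈ Set.Icc (-1 / 2 : ℝ) (1 / 2) := by
          rw [abs_le] at h1; exact ⟨by linarith [h1.1], h1.2⟩
        have := hκ _ hm
        rw [eB _ hm, eT _ hm] at this
        rw [this.1, this.2]
        exact ⟨h1, h2, h3⟩
  · refine le_max_of_le_left ?_
    have := hosc x hx x' hx'
    have e : x ^ 2 - 3 / 4 - (x' ^ 2 - 3 / 4) = x ^ 2 - x' ^ 2 := by ring
    rw [e]; exact this
  · refine le_max_of_le_left ?_
    have := hosc x' hx' x hx
    have e : 3 / 4 - x ^ 2 - (3 / 4 - x' ^ 2) = x' ^ 2 - x ^ 2 := by ring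
    rw [e]; exact this

end Pool.Agent.Results.MP_02aa3f_co.UnitStrip
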